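import Mathlib

/-!
# Antichain toggles on fences (definitions for `MP_caa0a9_co`)
-/

set_option linter.unusedSectionVars false

namespace Pool.Agent.R801.HF

open Finset

section
variable (α : Type) [Fintype α] [DecidableEq α] [PartialOrder α]

/-- The antichains of `α`. -/
abbrev Anti : Type := {A : Finset α // IsAntichain (· ≤ ·) (A : Set α)}

end

variable {α : Type} [Fintype α] [DecidableEq α] [PartialOrder α]

open Classical in
/-- The antichain toggle at `x`, as a map: `A ↦ A ⊕ {x}` if this is an antichain, else `A`. -/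
noncomputable def tog (x : α) (A : Anti α) : Anti α :=
  if h : IsAntichain (· ≤ ·) ((symmDiff A.1 {x} : Finset α) : Set α) then ⟨symmDiff A.1 {x}, h⟩
  else A

lemma tog_invol (x : α) : Function.Involutive (tog x) := by
  classical
  intro A
  by_cases h : IsAntichain (· ≤ ·) ((symmDiff A.1 {x} : Finset α) : Set α)
  · have e : tog x A = ⟨symmDiff A.1 {x}, h⟩ := by unfold tog; rw [dif_pos h]
    rw [e]
    have e2 : symmDiff (symmDiff A.1 {x}) {x} = A.1 := by
      rw [symmDiff_symmDiff_cancel_right]
    unfold tog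
    rw [dif_pos]
    · exact Subtype.ext e2
    · simp only [e2]; exact A.2
  · have e : tog x A = A := by unfold tog; rw [dif_neg h]
    rw [e, e]

/-- The antichain toggle at `x`, as a permutation. -/
noncomputable def tau (x : α) : Equiv.Perm (Anti α) := (tog_invol x).toPerm

/-- The product `τ_{y_1} ⋯ τ_{y_n}` for a list `y_1, …, y_n`. -/
noncomputable def cox (l : List α) : Equiv.Perm (Anti α) := (l.map tau).prod

/-- `l` lists every element of `α` exactly once. -/
def IsWord (l : List α) : Prop := l.Nodup ∧ ∀ x, x ∈ l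

open Classical in
/-- The orbit of `A` under the group generated by `w`. -/
noncomputable def orb (w : Equiv.Perm (Anti α)) (A : Anti α) : Finset (Anti α) :=
  univ.filter fun B => ∃ k : ℤ, (w ^ k) A = B

/-- The function `∑_y a_y χ_y`. -/
noncomputable def lin (a : α → ℝ) (A : Anti α) : ℝ := ∑ y, a y * (if y ∈ A.1 then 1 else 0)

/-- `f` is `c`-mesic under the group generated by `w`. -/
def Mesic (w : Equiv.Perm (Anti α)) (f : Anti α → ℝ) (c : ℝ) : Prop :=
  ∀ A, (∑ B ∈ orb w A, f B) / (#(orb w A) : ℝ) = c

/-- `f` is orbomesic under the group generated by `w`. -/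
def Orbomesic (w : Equiv.Perm (Anti α)) (f : Anti α → ℝ) : Prop :=
  ∀ A A', #(orb w A) = #(orb w A') → ∑ B ∈ orb w A, f B = ∑ B ∈ orb w A', f B

/-- `α` is a fence with elements `x 0, x 1, …, x (n - 1)`: the cover relations are exactly
`x i ⋖ x (i + 1)` when `d i` is true and `x (i + 1) ⋖ x i` when `d i` is false. -/
def IsFence (n : ℕ) (x : Fin n ≃ α) (d : ℕ → Bool) : Prop :=
  ∀ i j : Fin n, x i ⋖ x j ↔
    ((j : ℕ) = i + 1 ∧ d i = true) ∨ ((i : ℕ) = j + 1 ∧ d j = false)

end Pool.Agent.R801.HF
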