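import Pool.Agent.R801.HF.Words

/-!
# Fences
-/

set_option linter.unusedSectionVars false

namespace Pool.Agent.R801.HF

open Finset

variable {α : Type} [Fintype α] [DecidableEq α] [PartialOrder α]

section
variable {n : ℕ} {x : Fin n ≃ α} {d : ℕ → Bool}

lemma lt_of_up (h : IsFence n x d) (m : ℕ) : ∀ (i : ℕ) (hi : i + (m + 1) < n),
    (∀ k, i ≤ k → k < i + (m + 1) → d k = true) →
    x ⟨i, by omega⟩ < x ⟨i + (m + 1), hi⟩ := by
  induction m with
  | zero =>
    intro i hi hk
    apply CovBy.lt
    rw [h]
    left
    exact ⟨rfl, hk i le_rfl (by omega)⟩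
  | succ m ih =>
    intro i hi hk
    have h1 := ih i (by omega) (fun k h1 h2 => hk k h1 (by omega))
    have h2 : x ⟨i + (m + 1), by omega⟩ < x ⟨i + (m + 1 + 1), hi⟩ := by
      apply CovBy.lt
      rw [h]
      left
      exact ⟨rfl, hk (i + (m + 1)) (by omega) (by omega)⟩
    exact h1.trans h2

lemma lt_of_dn (h : IsFence n x d) (m : ℕ) : ∀ (i : ℕ) (hi : i + (m + 1) < n),
    (∀ k, i ≤ k → k < i + (m + 1) → d k = false) →
    x ⟨i + (m + 1), hi⟩ < x ⟨i, by omega⟩ := by
  induction m with
  | zero =>
    intro i hi hk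
    apply CovBy.lt
    rw [h]
    right
    exact ⟨rfl, hk i le_rfl (by omega)⟩
  | succ m ih =>
    intro i hi hk
    have h1 := ih i (by omega) (fun k h1 h2 => hk k h1 (by omega))
    have h2 : x ⟨i + (m + 1 + 1), hi⟩ < x ⟨i + (m + 1), by omega⟩ := by
      apply CovBy.lt
      rw [h]
      right
      exact ⟨rfl, hk (i + (m + 1)) (by omega) (by omega)⟩
    exact h2.trans h1

lemma char_of_trans (h : IsFence n x d) {a b : α} (hab : Relation.TransGen (· ⋖ ·) a b) :
    (((x.symm a : Fin n) : ℕ) < x.symm b ∧
        ∀ k, ((x.symm a : Fin n) : ℕ) ≤ k → k < x.symm b → d k = true) ∨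
      (((x.symm b : Fin n) : ℕ) < x.symm a ∧
        ∀ k, ((x.symm b : Fin n) : ℕ) ≤ k → k < x.symm a → d k = false) := by
  induction hab with
  | single hc =>
    rename_i b
    have := h (x.symm a) (x.symm b)
    simp only [Equiv.apply_symm_apply] at this
    rcases this.mp hc with ⟨h1, h2⟩ | ⟨h1, h2⟩
    · left
      refine ⟨by omega, ?_⟩
      intro k h3 h4
      have : k = (x.symm a : Fin n) := by omega
      rw [this]; exact h2
    · right
      refine ⟨by omega, ?_⟩
      intro k h3 h4
      have : k = (x.symm b : Fin n) := by omega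
      rw [this]; exact h2
  | tail _ hc ih =>
    rename_i b c _
    have := h (x.symm b) (x.symm c)
    simp only [Equiv.apply_symm_apply] at this
    rcases ih with ⟨h1, h2⟩ | ⟨h1, h2⟩ <;> rcases this.mp hc with ⟨h3, h4⟩ | ⟨h3, h4⟩
    · left
      refine ⟨by omega, ?_⟩
      intro k h5 h6
      by_cases hk : k = (x.symm b : Fin n)
      · rw [hk]; exact h4
      · exact h2 k h5 (by omega)
    · exfalso
      have := h2 (x.symm c) (by omega) (by omega)
      rw [h4] at this
      exact absurd this (by decide)
    · exfalso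
      have := h2 (x.symm b) le_rfl (by omega)
      rw [h4] at this
      exact absurd this (by decide)
    · right
      refine ⟨by omega, ?_⟩
      intro k h5 h6
      by_cases hk : k = (x.symm c : Fin n)
      · rw [hk]; exact h4
      · exact h2 k (by omega) h6

/-- monotone run from `i` to `j` -/
def Cc (d : ℕ → Bool) (i j : ℕ) : Prop := i < j ∧ ∀ k, i ≤ k → k < j → d k = d i

lemma adj_iff (h : IsFence n x d) (a b : α) :
    adj a b ↔ Cc d (x.symm a : Fin n) (x.symm b : Fin n) ∨
      Cc d (x.symm b : Fin n) (x.symm a : Fin n) := by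
  classical
  letI : LocallyFiniteOrder α := Fintype.toLocallyFiniteOrder
  have hlt : ∀ a b : α, a < b → Cc d (x.symm a : Fin n) (x.symm b : Fin n) ∨
      Cc d (x.symm b : Fin n) (x.symm a : Fin n) := by
    intro a b hab
    rcases char_of_trans h (lt_iff_transGen_covBy.mp hab) with ⟨h1, h2⟩ | ⟨h1, h2⟩
    · left
      refine ⟨h1, fun k h3 h4 => ?_⟩
      rw [h2 k h3 h4, h2 _ le_rfl h1]
    · right
      refine ⟨h1, fun k h3 h4 => ?_⟩
      rw [h2 k h3 h4, h2 _ le_rfl h1]
  have hcc : ∀ a b : α, Cc d (x.symm a : Fin n) (x.symm b : Fin n) → adj a b := by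
    intro a b hc
    obtain ⟨h1, h2⟩ := hc
    have hb := (x.symm b).isLt
    obtain ⟨m, hm⟩ : ∃ m, ((x.symm b : Fin n) : ℕ) = (x.symm a : Fin n) + (m + 1) :=
      ⟨(x.symm b : Fin n) - (x.symm a : Fin n) - 1, by omega⟩
    have ea : x ⟨(x.symm a : Fin n), (x.symm a).isLt⟩ = a := by simp
    have eb : x ⟨(x.symm a : Fin n) + (m + 1), by omega⟩ = b := by
      have : (⟨(x.symm a : Fin n) + (m + 1), by omega⟩ : Fin n) = x.symm b := Fin.ext hm.symm
      rw [this]; simp
    cases hd : d (x.symm a : Fin n)
    · right
      have := lt_of_dn h m (x.symm a : Fin n) (by omega) (fun k h3 h4 => by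
        rw [h2 k h3 (by omega), hd])
      rw [ea, eb] at this
      exact this
    · left
      have := lt_of_up h m (x.symm a : Fin n) (by omega) (fun k h3 h4 => by
        rw [h2 k h3 (by omega), hd])
      rw [ea, eb] at this
      exact this
  constructor
  · rintro (h1 | h1)
    · exact hlt a b h1
    · exact (hlt b a h1).symm
  · rintro (h1 | h1)
    · exact hcc a b h1
    · exact adj_symm (hcc b a h1)

/-- turning positions -/
def Tp (n : ℕ) (d : ℕ → Bool) (p : ℕ) : Prop := 0 < p ∧ p + 1 < n ∧ d (p - 1) ≠ d p

lemma F1 {i j k : ℕ} (h1 : Cc d i j) (h2 : Cc d j k) (hk : k < n) (hT : ¬ Tp n d j) :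
    Cc d i k := by
  obtain ⟨a1, a2⟩ := h1
  obtain ⟨b1, b2⟩ := h2
  have hd : d (j - 1) = d j := by
    by_contra hcon
    exact hT ⟨by omega, by omega, hcon⟩
  refine ⟨by omega, fun l h3 h4 => ?_⟩
  by_cases hl : l < j
  · exact a2 l h3 hl
  · rw [b2 l (by omega) h4, ← hd]
    exact a2 (j - 1) (by omega) (by omega)

lemma F2 {i j k : ℕ} (h1 : Cc d i k) (hij : i < j) (hjk : j < k) :
    Cc d i j ∧ Cc d j k ∧ ¬ Tp n d j := by
  obtain ⟨a1, a2⟩ := h1
  refine ⟨⟨hij, fun l h3 h4 => a2 l h3 (by omega)⟩, ⟨hjk, fun l h3 h4 => ?_⟩, ?_⟩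
  · rw [a2 l (by omega) h4, a2 j (by omega) hjk]
  · rintro ⟨h2, h3, h4⟩
    apply h4
    rw [a2 (j - 1) (by omega) (by omega), a2 j (by omega) hjk]

lemma pos_ne {a b : α} (h : a ≠ b) : ((x.symm a : Fin n) : ℕ) ≠ (x.symm b : Fin n) := by
  intro e
  apply h
  have : x.symm a = x.symm b := Fin.ext e
  exact x.symm.injective this

lemma twin_all (h : IsFence n x d) {u a : α} (hu : ¬ Tp n d (x.symm u : Fin n)) (hne : a ≠ u) :
    Sw u a := by
  classical
  by_cases hadj : adj u a
  swap
  · exact Sw_of_not_adj hadj
  have hA := adj_iff h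
  have hlt : ∀ y : α, ((x.symm y : Fin n) : ℕ) < n := fun y => (x.symm y).isLt
  set P : α → ℕ := fun y => ((x.symm y : Fin n) : ℕ) with hP
  have hPne : ∀ {y z : α}, y ≠ z → P y ≠ P z := fun hyz => pos_ne hyz
  have hA' : ∀ y z, adj y z ↔ Cc d (P y) (P z) ∨ Cc d (P z) (P y) := hA
  have hlt' : ∀ y, P y < n := hlt
  have hu' : ¬ Tp n d (P u) := hu
  have hPau := hPne hne
  -- neighbours of `u` are neighbours of `a`
  have htw : ∀ y, adj y u → y ≠ a → adj y a := by
    intro y hyu hya
    rw [hA'] at hyu hadj ⊢
    have hy := hPne hya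
    have hyu' : P y ≠ P u := by
      rcases hyu with h1 | h1
      · exact h1.1.ne
      · exact h1.1.ne'
    rcases hadj with h1 | h1
    · -- P u < P a
      rcases hyu with h2 | h2
      · exact Or.inl (F1 h2 h1 (hlt' a) hu')
      · rcases lt_or_gt_of_ne hy with h3 | h3
        · exact Or.inl (F2 (n := n) h1 h2.1 h3).2.1
        · exact Or.inr (F2 (n := n) h2 h1.1 h3).2.1
    · rcases hyu with h2 | h2
      · rcases lt_or_gt_of_ne hy with h3 | h3
        · exact Or.inl (F2 (n := n) h2 h3 h1.1).1
        · exact Or.inr (F2 (n := n) h1 h3 h2.1).1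
      · exact Or.inr (F1 h1 h2 (hlt' y) hu')
  by_cases hTa : Tp n d (P a)
  · rcases lt_or_gt_of_ne hPau with hlt1 | hlt1
    · -- P a < P u
      have hau : Cc d (P a) (P u) := by
        rcases (hA' u a).mp hadj with h1 | h1
        · exact absurd h1.1 (by omega)
        · exact h1
      apply Sw_twin (fun y => decide (P y ≤ P a)) hadj htw
      · intro y hy hya had
        have hy' : P y ≤ P a := by simpa using hy
        have := hPne hya
        rcases (hA' u y).mp had with h1 | h1
        · exact absurd h1.1 (by omega)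
        · exact (F2 (n := n) h1 (show P y < P a by omega) hlt1).2.2 hTa
      · intro z hz hzu y hy hya had
        have hz' : P a < P z := by simpa using hz
        have hy' : P y ≤ P a := by simpa using hy
        have := hPne hya
        rcases (hA' z y).mp had with h1 | h1
        · exact absurd h1.1 (by omega)
        · exact (F2 (n := n) h1 (show P y < P a by omega) hz').2.2 hTa
      · intro z hz hzu had
        have hz' : P a < P z := by simpa using hz
        have hzu' := hPne hzu
        rw [hA']
        have haz : Cc d (P a) (P z) := by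
          rcases (hA' z a).mp had with h1 | h1
          · exact absurd h1.1 (by omega)
          · exact h1
        rcases lt_or_gt_of_ne hzu' with h3 | h3
        · exact Or.inl (F2 (n := n) hau hz' h3).2.1
        · exact Or.inr (F2 (n := n) haz hlt1 h3).2.1
    · have hua : Cc d (P u) (P a) := by
        rcases (hA' u a).mp hadj with h1 | h1
        · exact h1
        · exact absurd h1.1 (by omega)
      apply Sw_twin (fun y => decide (P a ≤ P y)) hadj htw
      · intro y hy hya had
        have hy' : P a ≤ P y := by simpa using hy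
        have := hPne hya
        rcases (hA' u y).mp had with h1 | h1
        · exact (F2 (n := n) h1 hlt1 (show P a < P y by omega)).2.2 hTa
        · exact absurd h1.1 (by omega)
      · intro z hz hzu y hy hya had
        have hz' : P z < P a := by simpa using hz
        have hy' : P a ≤ P y := by simpa using hy
        have := hPne hya
        rcases (hA' z y).mp had with h1 | h1
        · exact (F2 (n := n) h1 hz' (show P a < P y by omega)).2.2 hTa
        · exact absurd h1.1 (by omega)
      · intro z hz hzu had
        have hz' : P z < P a := by simpa using hz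
        have hzu' := hPne hzu
        rw [hA']
        have hza : Cc d (P z) (P a) := by
          rcases (hA' z a).mp had with h1 | h1
          · exact h1
          · exact absurd h1.1 (by omega)
        rcases lt_or_gt_of_ne hzu' with h3 | h3
        · exact Or.inl (F2 (n := n) hza h3 hlt1).1
        · exact Or.inr (F2 (n := n) hua h3 hz').1
  · apply Sw_twin (fun y => decide (y = a)) hadj htw
    · intro y hy hya
      exact absurd (by simpa using hy) hya
    · intro z _ _ y hy hya
      exact absurd (by simpa using hy) hya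
    · intro z hz hzu had
      have hza : z ≠ a := by simpa using hz
      have hzu' := hPne hzu
      have hza' := hPne hza
      rw [hA'] at had hadj ⊢
      rcases hadj with h1 | h1
      · -- P u < P a
        rcases had with h2 | h2
        · rcases lt_or_gt_of_ne hzu' with h3 | h3
          · exact Or.inl (F2 (n := n) h2 h3 h1.1).1
          · exact Or.inr (F2 (n := n) h1 h3 h2.1).1
        · exact Or.inr (F1 h1 h2 (hlt' z) hTa)
      · rcases had with h2 | h2
        · exact Or.inl (F1 h2 h1 (hlt' u) hTa)
        · rcases lt_or_gt_of_ne hzu' with h3 | h3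
          · exact Or.inl (F2 (n := n) h1 h2.1 h3).2.1
          · exact Or.inr (F2 (n := n) h2 h1.1 h3).2.1

lemma Sw_all (h : IsFence n x d) (a b : α) (hne : a ≠ b) : Sw a b := by
  classical
  by_cases hadj : adj a b
  swap
  · exact Sw_of_not_adj hadj
  by_cases hTa : Tp n d (x.symm a : Fin n)
  swap
  · exact twin_all h hTa hne.symm
  by_cases hTb : Tp n d (x.symm b : Fin n)
  swap
  · exact (twin_all h hTb hne).symm
  -- both shared
  have key : ∀ s t : α, Cc d (x.symm s : Fin n) (x.symm t : Fin n) →
      Tp n d (x.symm s : Fin n) → Tp n d (x.symm t : Fin n) → Sw s t := by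
    intro s t hst hTs hTt
    have hA := adj_iff h
    set P : α → ℕ := fun y => ((x.symm y : Fin n) : ℕ) with hP
    have hPne : ∀ {y z : α}, y ≠ z → P y ≠ P z := fun hyz => pos_ne hyz
    have hPinj : ∀ {y z : α}, P y = P z → y = z := fun {y z} e => by
      by_contra hcon; exact hPne hcon e
    have hA' : ∀ y z, adj y z ↔ Cc d (P y) (P z) ∨ Cc d (P z) (P y) := hA
    have hst' : Cc d (P s) (P t) := hst
    have hs' : Tp n d (P s) := hTs
    have ht' : Tp n d (P t) := hTt
    have hlt := hst'.1
    apply Sw_shared (fun y => decide (P s < P y ∧ P y < P t)) (fun y => decide (P y ≤ P s))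
    · simp
    · simp
    · simp
    · simp; exact hlt
    · intro u hu b hbu
      have hu' : P s < P u ∧ P u < P t := by simpa using hu
      exact (twin_all h (F2 (n := n) hst' hu'.1 hu'.2).2.2 hbu).symm
    · intro y z hUy hUz hLy hLz hne had
      have hy : P y ≤ P s := by simpa using hLy
      have hz : P s < P z := by simpa using hLz
      have hz2 : P t ≤ P z := by
        by_contra hcon
        push Not at hcon
        have : ¬ (P s < P z ∧ P z < P t) := by simpa using hUz
        exact this ⟨hz, hcon⟩
      have hyz : Cc d (P y) (P z) := by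
        rcases (hA' y z).mp had with h1 | h1
        · exact h1
        · exact absurd h1.1 (by omega)
      by_cases h1 : P y = P s
      · by_cases h2 : P z = P t
        · exact hne ⟨hPinj h1, hPinj h2⟩
        · exact (F2 (n := n) hyz (show P y < P t by omega) (by omega)).2.2 ht'
      · exact (F2 (n := n) hyz (show P y < P s by omega) (by omega)).2.2 hs'
  rcases (adj_iff h a b).mp hadj with h1 | h1
  · exact key a b h1 hTa hTb
  · exact (key b a h1 hTb hTa).symm

/-- All Coxeter elements of a fence are conjugate by a statistic preserving bijection. -/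
theorem fence_SE (h : IsFence n x d) {l l' : List α} (hl : IsWord l) (hl' : IsWord l') :
    SE (cox l) (cox l') :=
  eqv_all (Sw_all h) hl hl'

end

theorem main {α : Type} [Fintype α] [DecidableEq α] [PartialOrder α] (n : ℕ) (x : Fin n ≃ α)
    (d : ℕ → Bool) (h : IsFence n x d) (l l' : List α) (hl : IsWord l) (hl' : IsWord l')
    (a : α → ℝ) :
    (∀ c : ℝ, Mesic (cox l) (lin a) c ↔ Mesic (cox l') (lin a) c) ∧
      (Orbomesic (cox l) (lin a) ↔ Orbomesic (cox l') (lin a)) := by
  have h1 := fence_SE h hl hl'
  exact ⟨fun c => ⟨h1.mesic a c, h1.symm.mesic a c⟩, ⟨h1.orbomesic a, h1.symm.orbomesic a⟩⟩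

end Pool.Agent.R801.HF
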