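import Pool.Agent.R801.HF.Tog

/-!
# Statistic preserving conjugation
-/

set_option linter.unusedSectionVars false

namespace Pool.Agent.R801.HF

open Finset

variable {α : Type} [Fintype α] [DecidableEq α] [PartialOrder α]

/-- indicator -/
noncomputable def ind (y : α) (B : Anti α) : ℝ := if y ∈ B.1 then 1 else 0

/-- invariant sets -/
def Inv (w : Equiv.Perm (Anti α)) (O : Finset (Anti α)) : Prop := ∀ B, w B ∈ O ↔ B ∈ O

/-- Two permutations of the antichains are conjugate in a way that preserves the sums of the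
indicators over invariant sets. -/
def SE (w w' : Equiv.Perm (Anti α)) : Prop :=
  ∃ Φ : Equiv.Perm (Anti α), w' * Φ = Φ * w ∧
    ∀ O, Inv w O → ∀ y, ∑ B ∈ O, ind y (Φ B) = ∑ B ∈ O, ind y B

lemma Inv.sum_comp {w : Equiv.Perm (Anti α)} {O : Finset (Anti α)} (h : Inv w O)
    (f : Anti α → ℝ) : ∑ B ∈ O, f (w B) = ∑ B ∈ O, f B := by
  apply sum_bij (fun B _ => w B)
  · intro B hB; exact (h B).mpr hB
  · intro a _ b _ e; exact w.injective e
  · intro B hB
    refine ⟨w.symm B, ?_, by simp⟩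
    rw [← h]; simpa using hB
  · intro B _; rfl

lemma Inv.map {w w' Φ : Equiv.Perm (Anti α)} {O : Finset (Anti α)} (h : Inv w O)
    (e : w' * Φ = Φ * w) : Inv w' (O.map Φ.toEmbedding) := by
  intro B
  simp only [mem_map_equiv]
  have e2 : Φ.symm (w' B) = w (Φ.symm B) := by
    rw [Equiv.symm_apply_eq]
    have := Equiv.congr_fun e (Φ.symm B)
    simpa using this
  rw [e2, h]

lemma SE.refl (w : Equiv.Perm (Anti α)) : SE w w := ⟨1, by simp, fun _ _ _ => rfl⟩

lemma SE.trans {w1 w2 w3 : Equiv.Perm (Anti α)} (h : SE w1 w2) (h' : SE w2 w3) : SE w1 w3 := by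
  obtain ⟨Φ, h1, h2⟩ := h
  obtain ⟨Ψ, h3, h4⟩ := h'
  refine ⟨Ψ * Φ, ?_, ?_⟩
  · rw [← mul_assoc, h3, mul_assoc, h1, mul_assoc]
  · intro O hO y
    rw [← h2 O hO y]
    have := h4 _ (hO.map h1) y
    rw [sum_map, sum_map] at this
    simpa using this

lemma SE.symm {w1 w2 : Equiv.Perm (Anti α)} (h : SE w1 w2) : SE w2 w1 := by
  obtain ⟨Φ, h1, h2⟩ := h
  have h3 : w1 * Φ⁻¹ = Φ⁻¹ * w2 := by
    rw [eq_inv_mul_iff_mul_eq, ← mul_assoc, ← h1, mul_assoc, mul_inv_cancel, mul_one]
  refine ⟨Φ⁻¹, h3, ?_⟩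
  intro O hO y
  have h4 := h2 _ (hO.map h3) y
  rw [sum_map, sum_map] at h4
  have h5 : ∀ x, Φ (Φ⁻¹ x) = x := fun x => by
    rw [← Equiv.Perm.mul_apply, mul_inv_cancel, Equiv.Perm.one_apply]
  simp only [Equiv.coe_toEmbedding, h5] at h4
  exact h4.symm

/-- Rotation of one letter. -/
lemma SE_rot {x : α} {l : List α} (hx : x ∉ l) : SE (cox (x :: l)) (cox (l ++ [x])) := by
  have e1 : cox (l ++ [x]) = cox l * tau x := by
    rw [cox_append, cox_cons, cox_nil, mul_one]
  refine ⟨tau x, ?_, ?_⟩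
  · rw [e1, cox_cons, ← mul_assoc, tau_sq, one_mul, mul_assoc, tau_sq, mul_one]
  · intro O hO y
    by_cases hy : y = x
    · subst hy
      rw [← hO.sum_comp (fun B => ind y (tau y B))]
      apply sum_congr rfl
      intro B _
      rw [cox_cons, Equiv.Perm.mul_apply]
      have : tau y (tau y (cox l B)) = cox l B := by
        have := Equiv.congr_fun (tau_sq y) (cox l B)
        simpa using this
      rw [this]
      unfold ind
      rw [if_congr (mem_cox l hx B) rfl rfl]
    · apply sum_congr rfl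
      intro B _
      unfold ind
      rw [if_congr (mem_tau_ne B hy) rfl rfl]

/-- Moving `u` past a block. -/
lemma SE_move {u t : α} {R1 R2 rest : List α} (hut : adj u t)
    (htw : ∀ y, adj y u → y ≠ t → adj y t)
    (h1 : ∀ y ∈ R1, ¬ adj u y ∧ y ≠ u ∧ y ≠ t) (h2 : ∀ y ∈ R2, ¬ adj u y ∧ y ≠ u ∧ y ≠ t)
    (h3 : ∀ x ∈ rest, (∀ y ∈ R1, ¬ adj x y ∧ x ≠ y) ∧ (∀ y ∈ R2, ¬ adj x y ∧ x ≠ y) ∧
      x ≠ u ∧ x ≠ t ∧ (adj x t → adj x u)) :
    SE (cox (rest ++ (R1 ++ t :: R2) ++ [u])) (cox (rest ++ [u] ++ (R1 ++ t :: R2))) := by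
  set T := cox (R1 ++ t :: R2) with hT
  have hTe : T = cox R1 * tau t * cox R2 := by
    rw [hT, cox_append, cox_cons, mul_assoc]
  have ew : cox (rest ++ (R1 ++ t :: R2) ++ [u]) = cox rest * T * tau u := by
    rw [cox_append, cox_append, cox_cons, cox_nil, mul_one]
  have ew' : cox (rest ++ [u] ++ (R1 ++ t :: R2)) = cox rest * tau u * T := by
    rw [cox_append, cox_append, cox_cons, cox_nil, mul_one]
  have hΦ : tau u * T * tau u = cox R1 * swp u t * cox R2 := by
    rw [hTe]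
    unfold swp
    have c1 := cox_comm R1 (x := u) (fun y hy => (h1 y hy).1)
    have c2 := cox_comm R2 (x := u) (fun y hy => (h2 y hy).1)
    calc tau u * (cox R1 * tau t * cox R2) * tau u
        = (tau u * cox R1) * tau t * (cox R2 * tau u) := by simp only [mul_assoc]
      _ = (cox R1 * tau u) * tau t * (tau u * cox R2) := by rw [c1, c2]
      _ = cox R1 * (tau u * tau t * tau u) * cox R2 := by simp only [mul_assoc]
  have hcomm : ∀ l : List α, (∀ x ∈ l, x ∈ rest) →
      cox l * (tau u * T * tau u) = (tau u * T * tau u) * cox l := by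
    intro l hl
    induction l with
    | nil => simp [cox_nil]
    | cons x l ih =>
      have hx := h3 x (hl x List.mem_cons_self)
      have ihl := ih (fun z hz => hl z (List.mem_cons_of_mem _ hz))
      have c1 := cox_comm R1 (x := x) (fun y hy => (hx.1 y hy).1)
      have c2 := cox_comm R2 (x := x) (fun y hy => (hx.2.1 y hy).1)
      have c3 : tau x * swp u t = swp u t * tau x := by
        by_cases hxt : adj x t
        · exact swp_comm_adj hut htw (hx.2.2.2.2 hxt) hxt
        · have hxu : ¬ adj x u := fun h => hxt (htw x h hx.2.2.2.1)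
          unfold swp
          rw [← mul_assoc, ← mul_assoc, tau_comm hxu, mul_assoc (tau u) (tau x),
            tau_comm hxt, ← mul_assoc, mul_assoc _ (tau x) (tau u), tau_comm hxu, ← mul_assoc]
      have c4 : tau x * (tau u * T * tau u) = (tau u * T * tau u) * tau x := by
        rw [hΦ, ← mul_assoc, ← mul_assoc, c1, mul_assoc (cox R1) (tau x), c3, ← mul_assoc,
          mul_assoc _ (tau x) (cox R2), c2, ← mul_assoc]
      rw [cox_cons, mul_assoc, ihl, ← mul_assoc, c4, mul_assoc]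
  refine ⟨tau u * T * tau u, ?_, ?_⟩
  · rw [ew, ew']
    have hc := hcomm rest (fun x hx => hx)
    have e1 : cox rest * tau u * T * (tau u * T * tau u) =
        cox rest * (tau u * T * tau u) * (T * tau u) := by simp only [mul_assoc]
    have e2 : tau u * T * tau u * (cox rest * T * tau u) =
        (tau u * T * tau u) * cox rest * (T * tau u) := by simp only [mul_assoc]
    rw [e1, e2, hc]
  · intro O hO y
    have hne := adj_ne hut
    have hurest : u ∉ rest := fun h => (h3 u h).2.2.1 rfl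
    have htrest : t ∉ rest := fun h => (h3 t h).2.2.2.1 rfl
    -- the letters of the block and `t`
    have hwval : ∀ z, z ≠ u → z ∉ rest → ∀ B,
        ind z ((tau u * T * tau u) B) = ind z (cox (rest ++ (R1 ++ t :: R2) ++ [u]) B) := by
      intro z hzu hzr B
      rw [ew]
      simp only [Equiv.Perm.mul_apply]
      unfold ind
      rw [if_congr (mem_tau_ne _ hzu) rfl rfl, if_congr (mem_cox rest hzr _) rfl rfl]
    by_cases hyu : y = u
    · subst hyu
      have hR1 : y ∉ R1 := fun h => (h1 y h).2.1 rfl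
      have hR1t : t ∉ R1 := fun h => (h1 t h).2.2 rfl
      have hR2 : y ∉ R2 := fun h => (h2 y h).2.1 rfl
      have hR2t : t ∉ R2 := fun h => (h2 t h).2.2 rfl
      have hpt : ∀ B, ind y ((tau y * T * tau y) B) + ind t ((tau y * T * tau y) B) =
          ind y B + ind t B := by
        intro B
        rw [hΦ]
        simp only [Equiv.Perm.mul_apply]
        have := swp_ind hut htw (cox R2 B)
        unfold ind
        rw [if_congr (mem_cox R1 hR1 _) rfl rfl, if_congr (mem_cox R1 hR1t _) rfl rfl, this,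
          if_congr (mem_cox R2 hR2 _) rfl rfl, if_congr (mem_cox R2 hR2t _) rfl rfl]
      have hs1 : ∑ B ∈ O, ind t ((tau y * T * tau y) B) = ∑ B ∈ O, ind t B := by
        rw [← hO.sum_comp (fun B => ind t B)]
        exact sum_congr rfl fun B _ => hwval t hne.symm htrest B
      have hs2 : ∑ B ∈ O, ind y ((tau y * T * tau y) B) +
          ∑ B ∈ O, ind t ((tau y * T * tau y) B) = ∑ B ∈ O, ind y B + ∑ B ∈ O, ind t B := by
        rw [← sum_add_distrib, ← sum_add_distrib]
        exact sum_congr rfl fun B _ => hpt B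
      linarith
    by_cases hyr : y ∈ rest
    · apply sum_congr rfl
      intro B _
      have hx := h3 y hyr
      have hyR1 : y ∉ R1 := fun h => (hx.1 y h).2 rfl
      have hyR2 : y ∉ R2 := fun h => (hx.2.1 y h).2 rfl
      rw [hΦ]
      simp only [Equiv.Perm.mul_apply]
      unfold ind
      rw [if_congr (mem_cox R1 hyR1 _) rfl rfl, if_congr (mem_swp_ne hut htw _ hyu hx.2.2.2.1) rfl rfl,
        if_congr (mem_cox R2 hyR2 _) rfl rfl]
    · rw [← hO.sum_comp (fun B => ind y B)]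
      exact sum_congr rfl fun B _ => hwval y hyu hyr B

/-! ### Consequences for homomesy -/

lemma lin_eq (a : α → ℝ) (A : Anti α) : lin a A = ∑ y, a y * ind y A := rfl

lemma mem_orb {w : Equiv.Perm (Anti α)} {A B : Anti α} : B ∈ orb w A ↔ ∃ k : ℤ, (w ^ k) A = B := by
  unfold orb
  simp

lemma orb_inv (w : Equiv.Perm (Anti α)) (A : Anti α) : Inv w (orb w A) := by
  intro B
  rw [mem_orb, mem_orb]
  constructor
  · rintro ⟨k, hk⟩
    refine ⟨k - 1, ?_⟩
    have : w ((w ^ (k - 1)) A) = w B := by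
      rw [← hk, ← Equiv.Perm.mul_apply, ← zpow_one_add]
      congr 2; ring
    exact w.injective this
  · rintro ⟨k, hk⟩
    refine ⟨1 + k, ?_⟩
    rw [zpow_one_add, Equiv.Perm.mul_apply, hk]

lemma conj_pow {w w' Φ : Equiv.Perm (Anti α)} (e : w' * Φ = Φ * w) (k : ℤ) :
    w' ^ k * Φ = Φ * w ^ k := by
  have : w' = Φ * w * Φ⁻¹ := by rw [← e]; simp
  rw [this, conj_zpow]
  simp

lemma orb_map {w w' Φ : Equiv.Perm (Anti α)} (e : w' * Φ = Φ * w) (A : Anti α) :
    orb w' (Φ A) = (orb w A).map Φ.toEmbedding := by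
  have hp : ∀ (k : ℤ) (C : Anti α), (w' ^ k) (Φ C) = Φ ((w ^ k) C) := fun k C => by
    rw [← Equiv.Perm.mul_apply, conj_pow e, Equiv.Perm.mul_apply]
  ext B
  rw [mem_orb, mem_map_equiv, mem_orb]
  constructor
  · rintro ⟨k, hk⟩
    refine ⟨k, ?_⟩
    rw [hp] at hk
    rw [← hk, Equiv.symm_apply_apply]
  · rintro ⟨k, hk⟩
    refine ⟨k, ?_⟩
    rw [hp, hk, Equiv.apply_symm_apply]

lemma SE.data {w w' : Equiv.Perm (Anti α)} (h : SE w w') (a : α → ℝ) :
    ∃ Φ : Equiv.Perm (Anti α), ∀ A, #(orb w' (Φ A)) = #(orb w A) ∧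
      ∑ B ∈ orb w' (Φ A), lin a B = ∑ B ∈ orb w A, lin a B := by
  obtain ⟨Φ, h1, h2⟩ := h
  refine ⟨Φ, fun A => ⟨?_, ?_⟩⟩
  · rw [orb_map h1, card_map]
  · rw [orb_map h1, sum_map]
    simp only [lin_eq, Equiv.coe_toEmbedding]
    rw [sum_comm, sum_comm (s := orb w A)]
    apply sum_congr rfl
    intro y _
    rw [← mul_sum, ← mul_sum, h2 _ (orb_inv w A)]

lemma SE.mesic {w w' : Equiv.Perm (Anti α)} (h : SE w w') (a : α → ℝ) (c : ℝ) :
    Mesic w (lin a) c → Mesic w' (lin a) c := by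
  obtain ⟨Φ, hΦ⟩ := h.data a
  intro hm A
  obtain ⟨h1, h2⟩ := hΦ (Φ.symm A)
  rw [Equiv.apply_symm_apply] at h1 h2
  rw [h1, h2]
  exact hm _

lemma SE.orbomesic {w w' : Equiv.Perm (Anti α)} (h : SE w w') (a : α → ℝ) :
    Orbomesic w (lin a) → Orbomesic w' (lin a) := by
  obtain ⟨Φ, hΦ⟩ := h.data a
  intro hm A A' hc
  obtain ⟨h1, h2⟩ := hΦ (Φ.symm A)
  obtain ⟨h3, h4⟩ := hΦ (Φ.symm A')
  rw [Equiv.apply_symm_apply] at h1 h2 h3 h4
  rw [h2, h4]
  apply hm
  rw [← h1, ← h3, hc]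

end Pool.Agent.R801.HF
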