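import Pool.Agent.R801.HF.Defs

/-!
# Toggles: membership, commutation, the swap
-/

set_option linter.unusedSectionVars false

namespace Pool.Agent.R801.HF

open Finset

variable {α : Type} [Fintype α] [DecidableEq α] [PartialOrder α]

/-- comparable and distinct -/
def adj (a b : α) : Prop := a < b ∨ b < a

lemma adj_symm {a b : α} (h : adj a b) : adj b a := h.symm

lemma adj_irrefl (a : α) : ¬ adj a a := by
  rintro (h | h) <;> exact lt_irrefl _ h

lemma adj_ne {a b : α} (h : adj a b) : a ≠ b := by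
  rintro rfl; exact adj_irrefl _ h

lemma not_adj_of_mem (A : Anti α) {x y : α} (hx : x ∈ A.1) (hy : y ∈ A.1) : ¬ adj x y := by
  rintro (h | h)
  · exact A.2 (mem_coe.mpr hx) (mem_coe.mpr hy) h.ne h.le
  · exact A.2 (mem_coe.mpr hy) (mem_coe.mpr hx) h.ne h.le

lemma anti_of_not_adj (A : Finset α) (h : ∀ x ∈ A, ∀ y ∈ A, ¬ adj x y) :
    IsAntichain (· ≤ ·) (A : Set α) := by
  intro x hx y hy hne hle
  exact h x (mem_coe.mp hx) y (mem_coe.mp hy) (Or.inl (lt_of_le_of_ne hle hne))

lemma mem_tau_ne {x y : α} (A : Anti α) (h : y ≠ x) : y ∈ (tau x A).1 ↔ y ∈ A.1 := by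
  show y ∈ (tog x A).1 ↔ y ∈ A.1
  unfold tog
  split_ifs with h1
  · simp only [mem_symmDiff, mem_singleton]
    tauto
  · rfl

lemma mem_tau_self (x : α) (A : Anti α) :
    x ∈ (tau x A).1 ↔ x ∉ A.1 ∧ ∀ y ∈ A.1, ¬ adj y x := by
  show x ∈ (tog x A).1 ↔ _
  unfold tog
  split_ifs with h1
  · simp only [mem_symmDiff, mem_singleton]
    constructor
    · intro h2
      have hx : x ∉ A.1 := by tauto
      refine ⟨hx, ?_⟩
      intro y hy
      let A' : Anti α := ⟨symmDiff A.1 {x}, h1⟩
      apply not_adj_of_mem A'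
      · show y ∈ symmDiff A.1 {x}
        rw [mem_symmDiff, mem_singleton]
        left; refine ⟨hy, ?_⟩
        rintro rfl; exact hx hy
      · show x ∈ symmDiff A.1 {x}
        rw [mem_symmDiff, mem_singleton]
        right; exact ⟨rfl, hx⟩
    · intro h2
      tauto
  · constructor
    · intro hx
      exfalso
      apply h1
      apply anti_of_not_adj
      intro a ha b hb
      rw [mem_symmDiff, mem_singleton] at ha hb
      have ha' : a ∈ A.1 := by
        rcases ha with h | h
        · exact h.1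
        · rw [h.1]; exact hx
      have hb' : b ∈ A.1 := by
        rcases hb with h | h
        · exact h.1
        · rw [h.1]; exact hx
      exact not_adj_of_mem A ha' hb'
    · rintro ⟨hx, hf⟩
      exfalso
      apply h1
      apply anti_of_not_adj
      intro a ha b hb
      rw [mem_symmDiff, mem_singleton] at ha hb
      rcases ha with ⟨ha, ha'⟩ | ⟨ha, ha'⟩ <;> rcases hb with ⟨hb, hb'⟩ | ⟨hb, hb'⟩
      · exact not_adj_of_mem A ha hb
      · rw [hb]; exact hf a ha
      · rw [ha]; intro h; exact hf b hb (adj_symm h)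
      · rw [ha, hb]; exact adj_irrefl x

lemma anti_ext {A B : Anti α} (h : ∀ z, z ∈ A.1 ↔ z ∈ B.1) : A = B :=
  Subtype.ext (Finset.ext h)

lemma tau_sq (x : α) : tau x * tau x = 1 := by
  ext1 A
  show tog x (tog x A) = A
  exact tog_invol x A

lemma tau_comm {x y : α} (h : ¬ adj x y) : tau x * tau y = tau y * tau x := by
  by_cases hxy : x = y
  · rw [hxy]
  ext1 A
  simp only [Equiv.Perm.mul_apply]
  apply anti_ext
  intro z
  by_cases hzx : z = x
  · subst hzx
    rw [mem_tau_self, mem_tau_ne _ hxy, mem_tau_ne _ hxy, mem_tau_self]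
    apply and_congr Iff.rfl
    constructor
    · intro h1 w hw
      by_cases hwy : w = y
      · subst hwy; intro h2; exact h (adj_symm h2)
      · exact h1 w ((mem_tau_ne _ hwy).mpr hw)
    · intro h1 w hw
      by_cases hwy : w = y
      · subst hwy; intro h2; exact h (adj_symm h2)
      · exact h1 w ((mem_tau_ne _ hwy).mp hw)
  by_cases hzy : z = y
  · subst hzy
    rw [mem_tau_ne _ hzx, mem_tau_self, mem_tau_self, mem_tau_ne _ hzx]
    apply and_congr Iff.rfl
    constructor
    · intro h1 w hw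
      by_cases hwx : w = x
      · subst hwx; exact h
      · exact h1 w ((mem_tau_ne _ hwx).mp hw)
    · intro h1 w hw
      by_cases hwx : w = x
      · subst hwx; exact h
      · exact h1 w ((mem_tau_ne _ hwx).mpr hw)
  · rw [mem_tau_ne _ hzx, mem_tau_ne _ hzy, mem_tau_ne _ hzy, mem_tau_ne _ hzx]

/-- The swap. -/
noncomputable def swp (u t : α) : Equiv.Perm (Anti α) := tau u * tau t * tau u

section
variable {u t : α} (hut : adj u t) (htw : ∀ y, adj y u → y ≠ t → adj y t)

include hut htw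

lemma mem_swp_t (A : Anti α) :
    t ∈ (swp u t A).1 ↔ u ∈ A.1 ∧ ∀ y ∈ A.1, y ≠ u → ¬ adj y t := by
  have hne := adj_ne hut
  unfold swp
  simp only [Equiv.Perm.mul_apply]
  rw [mem_tau_ne _ hne.symm, mem_tau_self, mem_tau_ne _ hne.symm]
  constructor
  · rintro ⟨h1, h2⟩
    have h3 : ∀ y ∈ A.1, y ≠ u → ¬ adj y t := fun y hy hyu =>
      h2 y ((mem_tau_ne _ hyu).mpr hy)
    refine ⟨?_, h3⟩
    by_contra hu
    have h4 : u ∈ (tau u A).1 := by
      rw [mem_tau_self]
      refine ⟨hu, ?_⟩
      intro y hy hyu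
      by_cases hyt : y = t
      · rw [hyt] at hy; exact h1 hy
      · exact h3 y hy (adj_ne hyu) (htw y hyu hyt)
    exact h2 u h4 hut
  · rintro ⟨h1, h2⟩
    refine ⟨fun ht => not_adj_of_mem A h1 ht hut, ?_⟩
    intro y hy
    by_cases hyu : y = u
    · subst hyu
      rw [mem_tau_self] at hy
      exact absurd h1 hy.1
    · exact h2 y ((mem_tau_ne _ hyu).mp hy) hyu

lemma mem_swp_u (A : Anti α) :
    u ∈ (swp u t A).1 ↔ t ∈ A.1 ∨ (u ∈ A.1 ∧ ∃ y ∈ A.1, y ≠ u ∧ adj y t) := by
  have hne := adj_ne hut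
  have ht := mem_swp_t hut htw A
  have ht' : t ∈ (tau t (tau u A)).1 ↔ u ∈ A.1 ∧ ∀ y ∈ A.1, y ≠ u → ¬ adj y t := by
    rw [← ht]
    unfold swp
    simp only [Equiv.Perm.mul_apply]
    rw [mem_tau_ne _ hne.symm]
  unfold swp
  simp only [Equiv.Perm.mul_apply]
  rw [mem_tau_self, mem_tau_ne _ hne, mem_tau_self]
  constructor
  · rintro ⟨h1, h2⟩
    have h5 : ∀ y ∈ A.1, y ≠ t → ¬ adj y u := by
      intro y hy hyt hyu
      exact h2 y ((mem_tau_ne _ hyt).mpr ((mem_tau_ne _ (adj_ne hyu)).mpr hy)) hyu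
    have h6 : ¬ (u ∈ A.1 ∧ ∀ y ∈ A.1, y ≠ u → ¬ adj y t) := by
      rw [← ht']
      intro h; exact h2 t h (adj_symm hut)
    by_cases hta : t ∈ A.1
    · exact Or.inl hta
    · right
      have hua : u ∈ A.1 := by
        by_contra hua
        apply h1
        refine ⟨hua, ?_⟩
        intro y hy hyu
        by_cases hyt : y = t
        · rw [hyt] at hy; exact hta hy
        · exact h5 y hy hyt hyu
      refine ⟨hua, ?_⟩
      by_contra hcon
      push Not at hcon
      exact h6 ⟨hua, hcon⟩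
  · intro h
    constructor
    · rintro ⟨h1, h2⟩
      rcases h with h | h
      · exact h2 t h (adj_symm hut)
      · exact h1 h.1
    · intro y hy hyu
      by_cases hyt : y = t
      · subst hyt
        rw [ht'] at hy
        rcases h with h | ⟨h, z, hz, hzu, hzt⟩
        · exact not_adj_of_mem A hy.1 h hut
        · exact hy.2 z hz hzu hzt
      · rw [mem_tau_ne _ hyt, mem_tau_ne _ (adj_ne hyu)] at hy
        rcases h with h | ⟨h, z, hz, hzu, hzt⟩
        · exact not_adj_of_mem A hy h (htw y hyu hyt)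
        · exact not_adj_of_mem A hy h hyu

lemma mem_swp_ne (A : Anti α) {z : α} (hu : z ≠ u) (ht : z ≠ t) :
    z ∈ (swp u t A).1 ↔ z ∈ A.1 := by
  unfold swp
  simp only [Equiv.Perm.mul_apply]
  rw [mem_tau_ne _ hu, mem_tau_ne _ ht, mem_tau_ne _ hu]

lemma swp_ind (A : Anti α) :
    ((if u ∈ (swp u t A).1 then 1 else 0 : ℝ)) + (if t ∈ (swp u t A).1 then 1 else 0) =
      (if u ∈ A.1 then 1 else 0) + (if t ∈ A.1 then 1 else 0) := by
  have h1 := mem_swp_t hut htw A
  have h2 := mem_swp_u hut htw A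
  by_cases hu : u ∈ A.1
  · have ht : t ∉ A.1 := fun ht => not_adj_of_mem A hu ht hut
    by_cases h3 : ∀ y ∈ A.1, y ≠ u → ¬ adj y t
    · have a : t ∈ (swp u t A).1 := h1.mpr ⟨hu, h3⟩
      have b : u ∉ (swp u t A).1 := by
        rw [h2]; push Not
        exact ⟨ht, fun _ => h3⟩
      simp [a, b, hu, ht]
    · have a : t ∉ (swp u t A).1 := fun h => h3 (h1.mp h).2
      have b : u ∈ (swp u t A).1 := by
        rw [h2]; push Not at h3
        exact Or.inr ⟨hu, h3⟩
      simp [a, b, hu, ht]
  · have a : t ∉ (swp u t A).1 := fun h => hu (h1.mp h).1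
    by_cases ht : t ∈ A.1
    · have b : u ∈ (swp u t A).1 := h2.mpr (Or.inl ht)
      simp [a, b, hu, ht]
    · have b : u ∉ (swp u t A).1 := by
        rw [h2]; tauto
      simp [a, b, hu, ht]

lemma swp_mem_or (A : Anti α) :
    (u ∈ (swp u t A).1 ∨ t ∈ (swp u t A).1) ↔ (u ∈ A.1 ∨ t ∈ A.1) := by
  rw [mem_swp_t hut htw, mem_swp_u hut htw]
  constructor
  · tauto
  · rintro (h | h)
    · by_cases h3 : ∀ y ∈ A.1, y ≠ u → ¬ adj y t
      · exact Or.inr ⟨h, h3⟩
      · push Not at h3
        exact Or.inl (Or.inr ⟨h, h3⟩)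
    · exact Or.inl (Or.inl h)

/-- The swap commutes with the toggle at a common neighbour. -/
lemma swp_comm_adj {x : α} (hxu : adj x u) (hxt : adj x t) :
    tau x * swp u t = swp u t * tau x := by
  have hu := adj_ne hxu
  have ht := adj_ne hxt
  have hne := adj_ne hut
  ext1 A
  simp only [Equiv.Perm.mul_apply]
  apply anti_ext
  -- if `u ∈ A` or `t ∈ A`, the toggle at `x` does nothing
  have key : ∀ B : Anti α, (u ∈ B.1 ∨ t ∈ B.1) → ∀ z, z ∈ (tau x B).1 ↔ z ∈ B.1 := by
    intro B hB z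
    by_cases hz : z = x
    · subst hz
      rw [mem_tau_self]
      rcases hB with h | h
      · constructor
        · rintro ⟨-, h2⟩; exact absurd (adj_symm hxu) (h2 u h)
        · intro h2; exact absurd hxu (not_adj_of_mem B h2 h)
      · constructor
        · rintro ⟨-, h2⟩; exact absurd (adj_symm hxt) (h2 t h)
        · intro h2; exact absurd hxt (not_adj_of_mem B h2 h)
    · exact mem_tau_ne _ hz
  by_cases hA : u ∈ A.1 ∨ t ∈ A.1
  · intro z
    rw [key _ ((swp_mem_or hut htw A).mpr hA)]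
    have : tau x A = A := anti_ext (key A hA)
    rw [this]
  · have hA' : ¬ (u ∈ (swp u t A).1 ∨ t ∈ (swp u t A).1) := by
      rw [swp_mem_or hut htw A]; exact hA
    have hA2 : ¬ (u ∈ (tau x A).1 ∨ t ∈ (tau x A).1) := by
      rw [mem_tau_ne _ hu.symm, mem_tau_ne _ ht.symm]; exact hA
    have hA3 : ¬ (u ∈ (swp u t (tau x A)).1 ∨ t ∈ (swp u t (tau x A)).1) := by
      rw [swp_mem_or hut htw]; exact hA2
    push Not at hA hA' hA2 hA3
    have e1 : swp u t A = A := by
      apply anti_ext
      intro z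
      by_cases hzu : z = u
      · rw [hzu]; exact ⟨fun h => absurd h hA'.1, fun h => absurd h hA.1⟩
      by_cases hzt : z = t
      · rw [hzt]; exact ⟨fun h => absurd h hA'.2, fun h => absurd h hA.2⟩
      · exact mem_swp_ne hut htw A hzu hzt
    have e2 : swp u t (tau x A) = tau x A := by
      apply anti_ext
      intro z
      by_cases hzu : z = u
      · rw [hzu]; exact ⟨fun h => absurd h hA3.1, fun h => absurd h hA2.1⟩
      by_cases hzt : z = t
      · rw [hzt]; exact ⟨fun h => absurd h hA3.2, fun h => absurd h hA2.2⟩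
      · exact mem_swp_ne hut htw _ hzu hzt
    intro z
    rw [e1, e2]

end

lemma cox_nil : cox ([] : List α) = 1 := rfl

lemma cox_cons (x : α) (l : List α) : cox (x :: l) = tau x * cox l := by
  unfold cox; simp

lemma cox_append (l m : List α) : cox (l ++ m) = cox l * cox m := by
  unfold cox; simp

lemma mem_cox {y : α} (l : List α) (h : y ∉ l) (A : Anti α) : y ∈ (cox l A).1 ↔ y ∈ A.1 := by
  induction l with
  | nil => rfl
  | cons x l ih =>
    rw [List.mem_cons, not_or] at h
    rw [cox_cons, Equiv.Perm.mul_apply, mem_tau_ne _ h.1, ih h.2]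

lemma cox_comm {x : α} (l : List α) (h : ∀ y ∈ l, ¬ adj x y) : tau x * cox l = cox l * tau x := by
  induction l with
  | nil => simp [cox_nil]
  | cons y l ih =>
    rw [cox_cons, ← mul_assoc, tau_comm (h y List.mem_cons_self), mul_assoc,
      ih (fun z hz => h z (List.mem_cons_of_mem _ hz)), mul_assoc]

end Pool.Agent.R801.HF
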