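import Pool.Agent.R801.HF.SE

/-!
# Words
-/

set_option linter.unusedSectionVars false

namespace Pool.Agent.R801.HF

open Finset

variable {α : Type} [Fintype α] [DecidableEq α] [PartialOrder α]

/-- equivalence of words -/
def Eqv (l l' : List α) : Prop := SE (cox l) (cox l')

lemma Eqv.refl (l : List α) : Eqv l l := SE.refl _

lemma Eqv.trans {l1 l2 l3 : List α} (h : Eqv l1 l2) (h' : Eqv l2 l3) : Eqv l1 l3 := SE.trans h h'

lemma Eqv.symm {l1 l2 : List α} (h : Eqv l1 l2) : Eqv l2 l1 := SE.symm h

lemma IsWord.perm {l l' : List α} (h : IsWord l) (p : l.Perm l') : IsWord l' :=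
  ⟨p.nodup_iff.mp h.1, fun x => p.mem_iff.mp (h.2 x)⟩

/-- `a` and `b` may be exchanged. -/
def Sw (a b : α) : Prop :=
  ∀ X Y : List α, IsWord (X ++ a :: b :: Y) → Eqv (X ++ a :: b :: Y) (X ++ b :: a :: Y)

lemma Sw.symm {a b : α} (h : Sw a b) : Sw b a := by
  intro X Y hw
  apply Eqv.symm
  apply h
  exact hw.perm ((List.Perm.swap a b Y).append_left X)

lemma Sw_of_not_adj {a b : α} (h : ¬ adj a b) : Sw a b := by
  intro X Y _
  unfold Eqv
  have : cox (X ++ a :: b :: Y) = cox (X ++ b :: a :: Y) := by
    rw [cox_append, cox_append, cox_cons, cox_cons, cox_cons, cox_cons, ← mul_assoc (tau a),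
      tau_comm h, mul_assoc]
  rw [this]
  exact SE.refl _

lemma pass_right {a : α} (m : List α) : ∀ X Y : List α, IsWord (X ++ a :: (m ++ Y)) →
    (∀ b ∈ m, Sw a b) → Eqv (X ++ a :: (m ++ Y)) (X ++ (m ++ a :: Y)) := by
  induction m with
  | nil => intro X Y _ _; exact Eqv.refl _
  | cons b m ih =>
    intro X Y hw hs
    have h1 : Eqv (X ++ a :: (b :: m ++ Y)) (X ++ b :: a :: (m ++ Y)) :=
      hs b List.mem_cons_self X (m ++ Y) hw
    have hw2 : IsWord ((X ++ [b]) ++ a :: (m ++ Y)) := by
      have := hw.perm ((List.Perm.swap b a (m ++ Y)).append_left X)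
      simpa using this
    have h2 := ih (X ++ [b]) Y hw2 (fun c hc => hs c (List.mem_cons_of_mem _ hc))
    simp only [List.append_assoc, List.cons_append, List.nil_append] at h2 ⊢
    exact h1.trans h2

lemma block_swap (m1 : List α) : ∀ (m2 X Y : List α), IsWord (X ++ (m1 ++ (m2 ++ Y))) →
    (∀ a ∈ m1, ∀ b ∈ m2, Sw a b) →
    Eqv (X ++ (m1 ++ (m2 ++ Y))) (X ++ (m2 ++ (m1 ++ Y))) := by
  induction m1 with
  | nil => intro m2 X Y _ _; exact Eqv.refl _
  | cons a m1 ih =>
    intro m2 X Y hw hs
    have hw2 : IsWord ((X ++ [a]) ++ (m1 ++ (m2 ++ Y))) := by simpa using hw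
    have h1 := ih m2 (X ++ [a]) Y hw2 (fun c hc b hb => hs c (List.mem_cons_of_mem _ hc) b hb)
    have hw3 : IsWord (X ++ a :: (m2 ++ (m1 ++ Y))) := by
      apply hw.perm
      apply List.Perm.append_left
      simp only [List.cons_append]
      apply List.Perm.cons
      rw [← List.append_assoc, ← List.append_assoc]
      exact List.perm_append_comm.append_right Y
    have h2 := pass_right m2 X (m1 ++ Y) hw3 (fun b hb => hs a List.mem_cons_self b hb)
    simp only [List.append_assoc, List.cons_append, List.nil_append] at h1 h2 ⊢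
    exact h1.trans h2

lemma shuffle (p : α → Bool) (l : List α) : ∀ X Y : List α, IsWord (X ++ (l ++ Y)) →
    l.Pairwise (fun a b => p a = false → p b = true → Sw a b) →
    Eqv (X ++ (l ++ Y)) (X ++ (l.filter p ++ (l.filter (fun x => !p x) ++ Y))) := by
  induction l with
  | nil => intro X Y _ _; exact Eqv.refl _
  | cons a l ih =>
    intro X Y hw hs
    rw [List.pairwise_cons] at hs
    have hw2 : IsWord ((X ++ [a]) ++ (l ++ Y)) := by simpa using hw
    have h1 := ih (X ++ [a]) Y hw2 hs.2
    cases hp : p a
    · have hw3 : IsWord (X ++ a :: (l.filter p ++ (l.filter (fun x => !p x) ++ Y))) := by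
        apply hw.perm
        apply List.Perm.append_left
        simp only [List.cons_append]
        apply List.Perm.cons
        rw [← List.append_assoc]
        exact (List.filter_append_perm p l).symm.append_right Y
      have h2 := pass_right (l.filter p) X (l.filter (fun x => !p x) ++ Y) hw3
        (fun b hb => hs.1 b (List.mem_of_mem_filter hb) hp (List.of_mem_filter hb))
      simp only [List.append_assoc, List.cons_append, List.nil_append, List.filter_cons, hp,
        Bool.not_false, if_true, Bool.false_eq_true, if_false] at h1 h2 ⊢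
      exact h1.trans h2
    · simp only [List.append_assoc, List.cons_append, List.nil_append, List.filter_cons, hp,
        Bool.not_true, if_true, Bool.false_eq_true, if_false] at h1 ⊢
      exact h1

lemma rot (l1 : List α) : ∀ l2 : List α, IsWord (l1 ++ l2) → Eqv (l1 ++ l2) (l2 ++ l1) := by
  induction l1 with
  | nil => intro l2 _; rw [List.nil_append, List.append_nil]; exact Eqv.refl _
  | cons x l1 ih =>
    intro l2 hw
    have hx : x ∉ l1 ++ l2 := by
      have := hw.1
      rw [List.cons_append, List.nodup_cons] at this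
      exact this.1
    have h1 : Eqv (x :: (l1 ++ l2)) ((l1 ++ l2) ++ [x]) := SE_rot hx
    have hw2 : IsWord (l1 ++ (l2 ++ [x])) := by
      apply hw.perm
      rw [List.cons_append, ← List.append_assoc]
      exact (List.perm_append_singleton x (l1 ++ l2)).symm
    have h2 := ih (l2 ++ [x]) hw2
    simp only [List.append_assoc, List.cons_append, List.nil_append] at h1 h2 ⊢
    exact h1.trans h2

lemma eqv_of_perm (hsw : ∀ a b : α, a ≠ b → Sw a b) {l l' : List α} (p : l.Perm l') :
    ∀ X Y : List α, IsWord (X ++ (l ++ Y)) → Eqv (X ++ (l ++ Y)) (X ++ (l' ++ Y)) := by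
  induction p with
  | nil => intro X Y _; exact Eqv.refl _
  | cons a p ih =>
    intro X Y hw
    have := ih (X ++ [a]) Y (by simpa using hw)
    simpa using this
  | swap a b l =>
    intro X Y hw
    have hne : b ≠ a := by
      intro e
      have := hw.1
      rw [e] at this
      rw [List.nodup_append] at this
      have h2 := this.2.1
      simp at h2
    exact hsw b a hne X (l ++ Y) hw
  | trans p1 p2 ih1 ih2 =>
    intro X Y hw
    exact (ih1 X Y hw).trans (ih2 X Y (hw.perm ((p1.append_right Y).append_left X)))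

lemma eqv_all (hsw : ∀ a b : α, a ≠ b → Sw a b) {l l' : List α} (h : IsWord l) (h' : IsWord l') :
    Eqv l l' := by
  have p : l.Perm l' := (List.perm_ext_iff_of_nodup h.1 h'.1).mpr (fun a => by
    simp [h.2 a, h'.2 a])
  have := eqv_of_perm hsw p [] [] (by simpa using h)
  simpa using this

/-- Sorting of a word around a middle part. -/
lemma sort_around (R : α → Bool) {u a : α} (M X Y : List α) (hw : IsWord (X ++ (M ++ Y)))
    (hM : a ∈ M ∧ u ∈ M)
    (h3 : ∀ x, R x = false → x ≠ u → ∀ y, R y = true → y ≠ a → ¬ adj x y) :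
    Eqv (X ++ (M ++ Y)) (X.filter (fun x => !R x) ++ (X.filter R ++ (M ++ (Y.filter R ++
      Y.filter (fun x => !R x))))) := by
  have hX : ∀ x ∈ X, x ≠ a ∧ x ≠ u := by
    intro x hx
    have hn := hw.1
    rw [List.nodup_append] at hn
    exact ⟨hn.2.2 x hx a (List.mem_append_left _ hM.1),
      hn.2.2 x hx u (List.mem_append_left _ hM.2)⟩
  have hY : ∀ y ∈ Y, y ≠ a ∧ y ≠ u := by
    intro y hy
    have hn := hw.1
    rw [List.nodup_append, List.nodup_append] at hn
    exact ⟨fun e => hn.2.1.2.2 a hM.1 y hy e.symm, fun e => hn.2.1.2.2 u hM.2 y hy e.symm⟩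
  have h1 := shuffle (fun x => !R x) X [] (M ++ Y) (by simpa using hw) (by
    apply List.pairwise_of_forall_mem_list
    intro x hx y hy hpx hpy
    have hx' : R x = true := by simpa using hpx
    have hy' : R y = false := by simpa using hpy
    apply Sw_of_not_adj
    intro h
    exact h3 y hy' (hX y hy).2 x hx' (hX x hx).1 (adj_symm h))
  have hXX : X.filter (fun x => !!R x) = X.filter R := by
    congr 1; funext x; simp
  rw [List.nil_append, List.nil_append, hXX] at h1
  have hw2 : IsWord ((X.filter (fun x => !R x) ++ (X.filter R ++ M)) ++ (Y ++ [])) := by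
    apply hw.perm
    have e : (X.filter (fun x => !R x) ++ (X.filter R ++ M)) ++ (Y ++ []) =
        (X.filter (fun x => !R x) ++ X.filter R) ++ (M ++ Y) := by simp
    rw [e]
    apply List.Perm.append_right
    have := List.filter_append_perm (fun x => !R x) X
    rw [hXX] at this
    exact this.symm
  have h2 := shuffle R Y _ [] hw2 (by
    apply List.pairwise_of_forall_mem_list
    intro x hx y hy hpx hpy
    apply Sw_of_not_adj
    exact h3 x hpx (hY x hx).2 y hpy (hY y hy).1)
  simp only [List.append_assoc, List.append_nil] at h1 h2 ⊢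
  exact h1.trans h2

lemma Sw_twin (R : α → Bool) {u a : α} (hadj : adj u a)
    (htw : ∀ y, adj y u → y ≠ a → adj y a)
    (h2 : ∀ y, R y = true → y ≠ a → ¬ adj u y)
    (h3 : ∀ x, R x = false → x ≠ u → ∀ y, R y = true → y ≠ a → ¬ adj x y)
    (h4 : ∀ x, R x = false → x ≠ u → adj x a → adj x u) : Sw u a := by
  intro X Y hw
  set XN := X.filter (fun x => !R x) with hXN
  set XR := X.filter R with hXR
  set YN := Y.filter (fun x => !R x) with hYN
  set YR := Y.filter R with hYR
  have hn := hw.1
  rw [List.nodup_append] at hn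
  have hn2 := hn.2.1
  rw [List.nodup_cons, List.nodup_cons, List.mem_cons, not_or] at hn2
  have hXa : ∀ x ∈ X, x ≠ a ∧ x ≠ u := fun x hx =>
    ⟨hn.2.2 x hx a (by simp), hn.2.2 x hx u (by simp)⟩
  have hYa : ∀ y ∈ Y, y ≠ a ∧ y ≠ u := fun y hy =>
    ⟨fun e => hn2.2.1 (e ▸ hy), fun e => hn2.1.2 (e ▸ hy)⟩
  have hXRm : ∀ y ∈ XR, R y = true ∧ y ≠ a ∧ y ≠ u := fun y hy =>
    ⟨List.of_mem_filter hy, hXa y (List.mem_of_mem_filter hy)⟩
  have hYRm : ∀ y ∈ YR, R y = true ∧ y ≠ a ∧ y ≠ u := fun y hy =>
    ⟨List.of_mem_filter hy, hYa y (List.mem_of_mem_filter hy)⟩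
  have hXNm : ∀ y ∈ XN, R y = false ∧ y ≠ a ∧ y ≠ u := fun y hy =>
    ⟨by simpa using List.of_mem_filter hy, hXa y (List.mem_of_mem_filter hy)⟩
  have hYNm : ∀ y ∈ YN, R y = false ∧ y ≠ a ∧ y ≠ u := fun y hy =>
    ⟨by simpa using List.of_mem_filter hy, hYa y (List.mem_of_mem_filter hy)⟩
  have hw' : IsWord (X ++ ([a, u] ++ Y)) :=
    hw.perm ((List.Perm.swap a u Y).append_left X)
  -- step 1
  have s1 := sort_around R (u := u) (a := a) [u, a] X Y hw (by simp) h3
  have s5 := sort_around R (u := u) (a := a) [a, u] X Y hw' (by simp) h3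
  rw [← hXN, ← hXR, ← hYN, ← hYR] at s1 s5
  -- permutations
  have pX : X.Perm (XN ++ XR) := by
    have := List.filter_append_perm R X
    rw [← hXR, ← hXN] at this
    exact this.symm.trans List.perm_append_comm
  have pY : Y.Perm (YR ++ YN) := (List.filter_append_perm R Y).symm
  have hw1 : IsWord (XN ++ (XR ++ ([u, a] ++ (YR ++ YN)))) := by
    apply hw.perm
    rw [← List.append_assoc]
    apply List.Perm.append pX
    exact (List.Perm.append_left [u, a] pY)
  -- step 2
  have hwb : IsWord (XN ++ u :: (XR ++ (a :: (YR ++ YN)))) := by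
    apply hw1.perm
    apply List.Perm.append_left
    exact List.perm_middle
  have s2 := (pass_right XR XN (a :: (YR ++ YN)) hwb
    (fun b hb => Sw_of_not_adj (h2 b (hXRm b hb).1 (hXRm b hb).2.1))).symm
  -- step 3
  have s3a := rot XN (u :: (XR ++ (a :: (YR ++ YN)))) hwb
  have hwc : IsWord ((u :: (XR ++ a :: YR)) ++ (YN ++ XN)) := by
    apply hwb.perm
    have := List.perm_append_comm (l₁ := XN) (l₂ := u :: (XR ++ (a :: (YR ++ YN))))
    simpa using this
  have s3b := rot (u :: (XR ++ a :: YR)) (YN ++ XN) hwc
  have s3c := (SE_move (rest := YN ++ XN) (R1 := XR) (R2 := YR) hadj htw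
    (fun y hy => ⟨h2 y (hXRm y hy).1 (hXRm y hy).2.1, (hXRm y hy).2.2, (hXRm y hy).2.1⟩)
    (fun y hy => ⟨h2 y (hYRm y hy).1 (hYRm y hy).2.1, (hYRm y hy).2.2, (hYRm y hy).2.1⟩)
    (by
      intro x hx
      have hx' : R x = false ∧ x ≠ a ∧ x ≠ u := by
        rcases List.mem_append.mp hx with h | h
        · exact hYNm x h
        · exact hXNm x h
      refine ⟨?_, ?_, hx'.2.2, hx'.2.1, h4 x hx'.1 hx'.2.2⟩
      · intro y hy
        refine ⟨h3 x hx'.1 hx'.2.2 y (hXRm y hy).1 (hXRm y hy).2.1, ?_⟩
        rintro rfl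
        rw [(hXRm x hy).1] at hx'
        exact absurd hx'.1 (by decide)
      · intro y hy
        refine ⟨h3 x hx'.1 hx'.2.2 y (hYRm y hy).1 (hYRm y hy).2.1, ?_⟩
        rintro rfl
        rw [(hYRm x hy).1] at hx'
        exact absurd hx'.1 (by decide))).symm
  have hwd : IsWord ((YN ++ XN) ++ ((XR ++ a :: YR) ++ [u])) := by
    apply hwc.perm
    refine List.perm_append_comm.trans ?_
    apply List.Perm.append_left
    exact (List.perm_append_singleton u (XR ++ a :: YR)).symm
  have s3d := rot (YN ++ XN) ((XR ++ a :: YR) ++ [u]) hwd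
  have hwe : IsWord ((((XR ++ a :: YR) ++ [u]) ++ YN) ++ XN) := by
    apply hwd.perm
    refine List.perm_append_comm.trans ?_
    rw [List.append_assoc]
    simp
  have s3e := rot (((XR ++ a :: YR) ++ [u]) ++ YN) XN hwe
  -- step 4
  have hwf : IsWord ((XN ++ (XR ++ [a])) ++ u :: (YR ++ YN)) := by
    apply hw1.perm
    simp only [List.append_assoc, List.cons_append, List.nil_append]
    apply List.Perm.append_left
    apply List.Perm.append_left
    exact List.Perm.swap _ _ _
  have s4 := (pass_right YR (XN ++ (XR ++ [a])) YN hwf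
    (fun b hb => Sw_of_not_adj (h2 b (hYRm b hb).1 (hYRm b hb).2.1))).symm
  have e3 : Eqv ((YN ++ XN) ++ [u] ++ (XR ++ a :: YR)) ((YN ++ XN) ++ (XR ++ a :: YR) ++ [u]) := s3c
  simp only [List.append_assoc, List.cons_append, List.nil_append] at s1 s2 s3a s3b e3 s3d s3e s4 s5 ⊢
  exact s1.trans (s2.trans (s3a.trans (s3b.trans (e3.trans (s3d.trans (s3e.trans (s4.trans
    s5.symm)))))))

/-- Exchange of two shared neighbours. -/
lemma Sw_shared (U L : α → Bool) {s t : α} (hUs : U s = false) (hUt : U t = false)
    (hLs : L s = true) (hLt : L t = false)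
    (hU : ∀ u, U u = true → ∀ b, b ≠ u → Sw b u)
    (hL : ∀ x y, U x = false → U y = false → L x = true → L y = false → ¬ (x = s ∧ y = t) →
      ¬ adj x y) : Sw s t := by
  intro X Y hw
  have hw' : IsWord (X ++ t :: s :: Y) := hw.perm ((List.Perm.swap t s Y).append_left X)
  have hn := hw.1
  rw [List.nodup_append] at hn
  have hn2 := hn.2.1
  rw [List.nodup_cons, List.nodup_cons, List.mem_cons, not_or] at hn2
  have hXa : ∀ x ∈ X, x ≠ t ∧ x ≠ s := fun x hx =>
    ⟨hn.2.2 x hx t (by simp), hn.2.2 x hx s (by simp)⟩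
  have hYa : ∀ y ∈ Y, y ≠ t ∧ y ≠ s := fun y hy =>
    ⟨fun e => hn2.2.1 (e ▸ hy), fun e => hn2.1.2 (e ▸ hy)⟩
  have hst : s ≠ t := hn2.1.1
  have step1 : ∀ l : List α, IsWord l → Eqv l (l.filter U ++ l.filter (fun x => !U x)) := by
    intro l hl
    have := shuffle U l [] [] (by simpa using hl) (by
      apply List.pairwise_of_forall_mem_list
      intro x _ y _ hx hy
      apply hU y hy
      rintro rfl
      rw [hx] at hy
      exact absurd hy (by decide))
    simpa using this
  -- first word
  have sortA : ∀ l : List α, IsWord l → l.Pairwise (fun a b => ¬ (a = t ∧ b = s)) →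
      Eqv l (l.filter U ++ ((l.filter fun x => !U x).filter L ++
        (l.filter fun x => !U x).filter fun x => !L x)) := by
    intro l hl hp
    have hwl : IsWord (l.filter U ++ ((l.filter fun x => !U x) ++ [])) := by
      apply hl.perm
      rw [List.append_nil]
      exact (List.filter_append_perm U l).symm
    have h2 := shuffle L (l.filter fun x => !U x) (l.filter U) [] hwl (by
      have hp2 := hp.filter (fun x => !U x)
      apply List.Pairwise.imp_of_mem _ hp2
      intro x y hx hy hne hLx hLy
      have hx' : U x = false := by simpa using List.of_mem_filter hx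
      have hy' : U y = false := by simpa using List.of_mem_filter hy
      apply Sw_of_not_adj
      intro h
      exact hL y x hy' hx' hLy hLx (fun h' => hne ⟨h'.2, h'.1⟩) (adj_symm h))
    have h1 := step1 l hl
    simp only [List.append_nil] at h2
    exact h1.trans h2
  have sortB : ∀ l : List α, IsWord l → l.Pairwise (fun a b => ¬ (a = s ∧ b = t)) →
      Eqv l (l.filter U ++ ((l.filter fun x => !U x).filter (fun x => !L x) ++
        (l.filter fun x => !U x).filter L)) := by
    intro l hl hp
    have hwl : IsWord (l.filter U ++ ((l.filter fun x => !U x) ++ [])) := by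
      apply hl.perm
      rw [List.append_nil]
      exact (List.filter_append_perm U l).symm
    have h2 := shuffle (fun x => !L x) (l.filter fun x => !U x) (l.filter U) [] hwl (by
      have hp2 := hp.filter (fun x => !U x)
      apply List.Pairwise.imp_of_mem _ hp2
      intro x y hx hy hne hLx hLy
      have hx' : U x = false := by simpa using List.of_mem_filter hx
      have hy' : U y = false := by simpa using List.of_mem_filter hy
      apply Sw_of_not_adj
      intro h
      have hLx' : L x = true := by simpa using hLx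
      have hLy' : L y = false := by simpa using hLy
      exact hL x y hx' hy' hLx' hLy' hne h)
    have h1 := step1 l hl
    have hLL : (l.filter fun x => !U x).filter (fun x => !!L x) =
        (l.filter fun x => !U x).filter L := by
      congr 1; funext x; simp
    simp only [List.append_nil] at h2
    rw [hLL] at h2
    exact h1.trans h2
  have pA : (X ++ s :: t :: Y).Pairwise (fun a b => ¬ (a = t ∧ b = s)) := by
    rw [List.pairwise_append]
    refine ⟨?_, ?_, ?_⟩
    · apply List.pairwise_of_forall_mem_list
      intro x hx y _ h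
      exact (hXa x hx).1 h.1
    · rw [List.pairwise_cons, List.pairwise_cons]
      refine ⟨?_, ?_, ?_⟩
      · intro y _ h; exact hst h.1
      · intro y hy h; exact (hYa y hy).2 h.2
      · apply List.pairwise_of_forall_mem_list
        intro x hx y _ h
        exact (hYa x hx).1 h.1
    · intro x hx y _ h
      exact (hXa x hx).1 h.1
  have pB : (X ++ t :: s :: Y).Pairwise (fun a b => ¬ (a = s ∧ b = t)) := by
    rw [List.pairwise_append]
    refine ⟨?_, ?_, ?_⟩
    · apply List.pairwise_of_forall_mem_list
      intro x hx y _ h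
      exact (hXa x hx).2 h.1
    · rw [List.pairwise_cons, List.pairwise_cons]
      refine ⟨?_, ?_, ?_⟩
      · intro y _ h; exact hst h.1.symm
      · intro y hy h; exact (hYa y hy).1 h.2
      · apply List.pairwise_of_forall_mem_list
        intro x hx y _ h
        exact (hYa x hx).2 h.1
    · intro x hx y _ h
      exact (hXa x hx).2 h.1
  have eA := sortA _ hw pA
  have eB := sortB _ hw' pB
  set V := (X ++ s :: t :: Y).filter U with hV
  set P := ((X ++ s :: t :: Y).filter fun x => !U x).filter L with hP
  set Q := ((X ++ s :: t :: Y).filter fun x => !U x).filter (fun x => !L x) with hQ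
  have hV' : (X ++ t :: s :: Y).filter U = V := by
    rw [hV]; simp [List.filter_cons, hUs, hUt]
  have hP' : ((X ++ t :: s :: Y).filter fun x => !U x).filter L = P := by
    rw [hP]; simp [List.filter_cons, hUs, hUt, hLs, hLt]
  have hQ' : ((X ++ t :: s :: Y).filter fun x => !U x).filter (fun x => !L x) = Q := by
    rw [hQ]; simp [List.filter_cons, hUs, hUt, hLs, hLt]
  rw [hV', hP', hQ'] at eB
  have hperm : (X ++ s :: t :: Y).Perm (V ++ (P ++ Q)) := by
    refine (List.filter_append_perm U _).symm.trans ?_
    apply List.Perm.append_left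
    exact (List.filter_append_perm L _).symm
  have hw1 : IsWord (V ++ (P ++ Q)) := hw.perm hperm
  have r1 := rot V (P ++ Q) hw1
  have hw2 : IsWord (P ++ (Q ++ V)) := by
    apply hw1.perm
    have := List.perm_append_comm (l₁ := V) (l₂ := P ++ Q)
    rwa [List.append_assoc] at this
  have r2 := rot P (Q ++ V) hw2
  have hw3 : IsWord ([] ++ (Q ++ (V ++ P))) := by
    apply hw2.perm
    have := List.perm_append_comm (l₁ := P) (l₂ := Q ++ V)
    rwa [List.append_assoc] at this
  have r3 := block_swap Q V [] P hw3 (by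
    intro a ha b hb
    have hb' : U b = true := List.of_mem_filter hb
    apply hU b hb'
    rintro rfl
    have ha' : U a = false := by
      have := List.mem_of_mem_filter ha
      simpa using List.of_mem_filter this
    rw [ha'] at hb'
    exact absurd hb' (by decide))
  simp only [List.append_assoc, List.nil_append] at r1 r2 r3
  exact eA.trans (r1.trans (r2.trans (r3.trans eB.symm)))

end Pool.Agent.R801.HF
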